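import Pool.Agent.Lib.MP_a78e1f_lc.U.Iface

/-!
Module CCVP (MP_a78e1f_lc): properness implies countable covering.
-/

set_option autoImplicit false

universe u

open Filter

namespace Pool.Agent.Lib.MP_a78e1f_lc.H30

open Pool.Agent.Lib.MP_a78e1f_lc
open Pool.Agent.Lib.MP_6d445e_gt
open Pool.Agent.Lib.MP_e6fef2_lc

theorem ccvp : CcvpStatement.{u} := by
  intro B _ hP X f hf
  obtain ⟨c1, c2, c3, c4, -⟩ := all_club.{u}
  by_contra hne
  set S : B := ⨆ Y : {Y : Set X // Y.Countable}, ⨅ n, ⨆ x : Y.1, f n x with hS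
  have ha : Sᶜ ≠ ⊥ := by
    intro h
    exact hne (compl_eq_bot.1 h)
  have hG := (all_gen B).1 X
  have hfn : ∀ᶠ N in club.{u}, ∀ n, In N (f n) := c3 _ fun n => c4 _ (f n)
  have haN : ∀ᶠ N in club.{u}, In N Sᶜ := c4 _ Sᶜ
  obtain ⟨N, hNc, -, h1, h2, h3, h4⟩ := c1 _ (hP.and (hG.and (hfn.and haN))) ∅ Set.countable_empty
  have hY : ({x | In N x} : Set X).Countable := by
    have h5 : Function.Injective (fun x : X => (⟨X, x⟩ : El.{u})) := by
      intro x y h
      simpa using h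
    exact hNc.preimage h5
  have h6 : gen B N ≤ S := by
    refine le_iSup_of_le (⟨{x | In N x}, hY⟩ : {Y : Set X // Y.Countable}) ?_
    refine le_iInf fun n => ?_
    have h7 := h2 (f n) (h3 n)
    rw [hf n, inf_top_eq] at h7
    refine h7.trans ?_
    refine iSup_le fun t => iSup_le fun ht => ?_
    exact le_iSup (fun x : ({x | In N x} : Set X) => f n x.1) ⟨t, ht⟩
  apply h1 Sᶜ h4 ha
  have h7 : S ⊓ Sᶜ = ⊥ := inf_compl_eq_bot
  rw [← le_bot_iff, ← h7]
  exact inf_le_inf_right _ h6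

end Pool.Agent.Lib.MP_a78e1f_lc.H30
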