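import Pool.Agent.Lib.MP_a78e1f_lc.R.Iface

/-!
Module CM (MP_a78e1f_lc): the fair coin measure of the Cantor space.
-/

set_option autoImplicit false

open MeasureTheory

namespace Pool.Agent.Lib.MP_a78e1f_lc.H30

open Pool.Agent.Lib.MP_a78e1f_lc

theorem res_length (x : Cs) (n : ℕ) : (res x n).length = n := by
  simp [res]

theorem res_get (x : Cs) (n i : ℕ) (h : i < (res x n).length) : (res x n)[i] = x i := by
  simp [res]

theorem res_eq_iff (x y : Cs) (n : ℕ) : res x n = res y n ↔ ∀ i < n, x i = y i := by
  constructor
  · intro h i hi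
    have h1 : i < (res x n).length := by rw [res_length]; exact hi
    have h2 : i < (res y n).length := by rw [res_length]; exact hi
    have h3 : (res x n)[i] = (res y n)[i] := by simp only [h]
    rwa [res_get, res_get] at h3
  · intro h
    apply List.ext_getElem
    · rw [res_length, res_length]
    · intro i h1 h2
      rw [res_get, res_get]
      rw [res_length] at h1
      exact h i h1

theorem res_eq_list_iff (x : Cs) (σ : List Bool) :
    res x σ.length = σ ↔ ∀ i, ∀ h : i < σ.length, x i = σ[i] := by
  constructor
  · intro h i hi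
    have h1 : i < (res x σ.length).length := by rw [res_length]; exact hi
    have h3 := res_get x σ.length i h1
    rw [← h3]
    simp only [h]
  · intro h
    apply List.ext_getElem
    · rw [res_length]
    · intro i h1 h2
      rw [res_get]
      exact h i h2

theorem cyl_eq (σ : List Bool) : {x : Cs | res x σ.length = σ} =
    Set.pi (↑(Finset.range σ.length)) (fun i => {σ.getD i false}) := by
  ext x
  simp only [Set.mem_setOf_eq, res_eq_list_iff, Set.mem_pi, Finset.coe_range, Set.mem_Iio,
    Set.mem_singleton_iff]
  constructor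
  · intro h i hi
    rw [h i hi]
    simp [List.getD_eq_getElem?_getD, hi]
  · intro h i hi
    rw [h i hi]
    simp [List.getD_eq_getElem?_getD, hi]

theorem coin (b : Bool) : (PMF.uniformOfFintype Bool).toMeasure {b} = ENNReal.ofReal (1 / 2) := by
  rw [PMF.toMeasure_apply_singleton _ _ (MeasurableSet.singleton b)]
  rw [PMF.uniformOfFintype_apply]
  simp only [Fintype.card_bool, Nat.cast_ofNat, one_div]
  rw [ENNReal.ofReal_inv_of_pos (by norm_num)]
  norm_num

theorem cm_cyl (σ : List Bool) :
    cm {x | res x σ.length = σ} = ENNReal.ofReal ((1 / 2) ^ σ.length) := by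
  rw [cyl_eq, cm, Measure.infinitePi_pi _ (fun i _ => MeasurableSet.singleton _)]
  simp only [coin]
  rw [Finset.prod_const, Finset.card_range, ENNReal.ofReal_pow (by norm_num)]

theorem cyl_meas (σ : List Bool) : MeasurableSet {x : Cs | res x σ.length = σ} := by
  rw [cyl_eq]
  exact MeasurableSet.pi (Finset.countable_toSet _) (fun i _ => MeasurableSet.singleton _)

theorem cm_module : CmStatement := by
  refine ⟨?_, ?_, cm_cyl, cyl_meas, res_length, res_eq_iff, ?_, ?_⟩
  · unfold cm; infer_instance
  · intro x
    have h1 : ∀ n : ℕ, cm {x} ≤ ENNReal.ofReal ((1 / 2) ^ n) := by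
      intro n
      have h2 := cm_cyl (res x n)
      rw [res_length] at h2
      rw [← h2]
      apply measure_mono
      intro y hy
      rw [Set.mem_singleton_iff.1 hy]
      rfl
    have h3 : Filter.Tendsto (fun n : ℕ => ENNReal.ofReal ((1 / 2 : ℝ) ^ n)) Filter.atTop
        (nhds (ENNReal.ofReal 0)) := by
      apply ENNReal.tendsto_ofReal
      exact tendsto_pow_atTop_nhds_zero_of_lt_one (by norm_num) (by norm_num)
    rw [ENNReal.ofReal_zero] at h3
    exact le_antisymm (ge_of_tendsto' h3 h1) bot_le
  · intro x m n hmn
    have h1 : res x m = (res x n).take m := by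
      unfold res
      rw [← List.map_take, List.take_range, min_eq_left hmn]
    rw [h1]
    exact List.take_prefix _ _
  · intro x σ n h
    rw [res_eq_list_iff]
    intro i hi
    have h1 : σ[i] = (res x n)[i]'(lt_of_lt_of_le hi h.length_le) := h.getElem hi
    rw [h1, res_get]

end Pool.Agent.Lib.MP_a78e1f_lc.H30
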