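import Pool.Agent.Lib.MP_a78e1f_lc.R.Iface
import Pool.Agent.Lib.MP_a78e1f_lc.H30.Cm

/-!
Module MIX (MP_a78e1f_lc): mixtures of measurable sets.
-/

set_option autoImplicit false

universe u

open MeasureTheory Filter

namespace Pool.Agent.Lib.MP_a78e1f_lc.H30

open Pool.Agent.Lib.MP_a78e1f_lc
open Pool.Agent.Lib.MP_6d445e_gt

theorem cm_prob : IsProbabilityMeasure cm := cm_module.1

theorem cm_zero_of_le {S : Set Cs} (h : ∀ n : ℕ, cm.real S ≤ 1 / ((n : ℝ) + 1)) : cm S = 0 := by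
  have := cm_prob
  have h1 : cm.real S ≤ 0 := by
    have h2 : Tendsto (fun n : ℕ => 1 / ((n : ℝ) + 1)) atTop (nhds 0) :=
      tendsto_one_div_add_atTop_nhds_zero_nat
    exact ge_of_tendsto' h2 h
  have h3 : cm.real S = 0 := le_antisymm h1 measureReal_nonneg
  rw [measureReal_def, ENNReal.toReal_eq_zero_iff] at h3
  exact h3.resolve_right (measure_ne_top _ _)

theorem mix (hR : RegStatement.{u}) (hM : MeasStatement.{u}) : MixStatement.{u} := by
  intro A _ T a E hd hE
  obtain ⟨-, -, -, m4, -, m6, -, -, -⟩ := hM A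
  have h1 : ∀ (t : T) (n : ℕ), ∃ ε : List Bool → A, Avd ε (E t) ∧
      ∀ᶠ g in ae A, cm.real (sec ((Kc ε)ᶜ \ E t) g) ≤ 1 / ((n : ℝ) + 1) :=
    fun t n => hR A (E t) (hE t) _ (by positivity)
  choose ε hεA hεq using h1
  set η : ℕ → List Bool → A := fun n σ => ⨆ t, a t ⊓ ε t n σ with hη
  set F : Set (Pt A) := {p | (⨆ t, a t) ∈ p.1} ∩ ⋂ n, (Kc (η n))ᶜ with hF
  have hFm : MeasurableSet F :=
    (m4 _).inter (MeasurableSet.iInter fun n => (m6 _).compl)
  -- the codes agree below a t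
  have hag : ∀ t n σ, a t ⊓ η n σ = a t ⊓ ε t n σ := by
    intro t n σ
    simp only [hη]
    rw [inf_iSup_eq]
    apply le_antisymm
    · apply iSup_le
      intro t'
      by_cases h : t = t'
      · subst h
        rw [← inf_assoc, inf_idem]
      · rw [← inf_assoc, hd t t' h, bot_inf_eq]
        exact bot_le
    · refine le_iSup_of_le t ?_
      rw [← inf_assoc, inf_idem]
  have hmem : ∀ t (g : Ult A), a t ∈ g → ∀ n σ, (η n σ ∈ g ↔ ε t n σ ∈ g) := by
    intro t g hg n σ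
    have e1 : η n σ ∈ g ↔ a t ⊓ η n σ ∈ g := by rw [g.mem_inf]; simp [hg]
    have e2 : ε t n σ ∈ g ↔ a t ⊓ ε t n σ ∈ g := by rw [g.mem_inf]; simp [hg]
    rw [e1, e2, hag]
  have hKc : ∀ t (g : Ult A), a t ∈ g → ∀ n (x : Cs), ((g, x) ∈ Kc (η n) ↔ (g, x) ∈ Kc (ε t n)) := by
    intro t g hg n x
    simp only [Kc, Set.mem_setOf_eq]
    exact forall_congr' fun k => not_congr (hmem t g hg n _)
  refine ⟨F, hFm, ?_, ?_⟩
  · intro t
    have hav : ∀ᶠ g in ae A, ∀ n, ∀ x : Cs, (g, x) ∈ Kc (ε t n) → (g, x) ∉ E t :=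
      ae_all fun n => hεA t n
    have hq : ∀ᶠ g in ae A, ∀ n : ℕ, cm.real (sec ((Kc (ε t n))ᶜ \ E t) g) ≤ 1 / ((n : ℝ) + 1) :=
      ae_all fun n => hεq t n
    filter_upwards [hav, hq] with g g1 g2 hg
    constructor
    · have : sec (E t \ F) g = ∅ := by
        rw [Set.eq_empty_iff_forall_notMem]
        intro x hx
        obtain ⟨hx1, hx2⟩ := hx
        apply hx2
        refine ⟨g.mono (le_iSup a t) hg, ?_⟩
        rw [Set.mem_iInter]
        intro n hn
        exact g1 n x ((hKc t g hg n x).1 hn) hx1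
      rw [this, measure_empty]
    · apply cm_zero_of_le
      intro n
      refine le_trans ?_ (g2 n)
      have := cm_prob
      apply measureReal_mono
      · intro x hx
        obtain ⟨hx1, hx2⟩ := hx
        refine ⟨?_, hx2⟩
        have h3 := Set.mem_iInter.1 hx1.2 n
        intro h4
        exact h3 ((hKc t g hg n x).2 h4)
      · exact measure_ne_top _ _
  · refine Filter.Eventually.of_forall fun g hg => ?_
    rw [Set.eq_empty_iff_forall_notMem]
    intro x hx
    exact hg hx.1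

end Pool.Agent.Lib.MP_a78e1f_lc.H30
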