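import Pool.Agent.Lib.MP_a78e1f_lc.R.Iface
import Pool.Agent.Lib.MP_a78e1f_lc.H30.Cm

/-!
Module REGX (MP_a78e1f_lc): closed sets with a code below an element of the random extension.
-/

set_option autoImplicit false

universe u

open MeasureTheory Filter

namespace Pool.Agent.Lib.MP_a78e1f_lc.H30

open Pool.Agent.Lib.MP_a78e1f_lc
open Pool.Agent.Lib.MP_6d445e_gt
open Pool.Agent.Lib.MP_e6fef2_lc

theorem addM_mono {A C : Type u} [CompleteBooleanAlgebra A] [CompleteBooleanAlgebra C]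
    {f : A → C} {π : C → A} (hπ : AddM f π) {c c' : C} (h : c ≤ c') : π c ≤ π c' := by
  have h1 := hπ.sup c c'
  rw [sup_eq_right.2 h] at h1
  rw [h1]
  exact le_sup_left

theorem split_le {B : Type u} [CompleteBooleanAlgebra B] (x y z : B) :
    x ⊓ z ≤ (x ⊓ y ⊓ z) ⊔ (yᶜ ⊓ x) := by
  calc x ⊓ z = ((y ⊔ yᶜ) ⊓ x) ⊓ z := by
        rw [sup_compl_eq_top, top_inf_eq]
    _ = (x ⊓ y ⊓ z) ⊔ (yᶜ ⊓ x) ⊓ z := by
        rw [inf_sup_right, inf_sup_right, inf_comm y x]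
    _ ≤ _ := sup_le_sup_left inf_le_left _

/-- The value of a set whose sections are small. -/
theorem mq_small (hRapi : RapiStatement.{u}) (hRep : RepStatement.{u}) (hMq : MqStatement.{u})
    {C : Type u} [CompleteBooleanAlgebra C] {G : Set (Pt C)} (hG : MeasurableSet G) {q : ℝ}
    (hq : ∀ᶠ g in ae C, cm.real (sec G g) ≤ q) : mq (mkR G) q = ⊥ := by
  have : IsProbabilityMeasure cm := cm_module.1
  rw [← le_bot_iff]
  apply le_of_ae
  have h1 := ((hRep C).2.1 G hG).1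
  filter_upwards [(hMq C).1 (mkR G) q, hq, h1] with g g1 g2 g3 hg
  exfalso
  have h4 := g1.1 hg
  have h5 : cm.real (sec (rep (mkR G)) g) ≤ cm.real (sec G g) := by
    rw [measureReal_def, measureReal_def]
    apply ENNReal.toReal_mono (measure_ne_top _ _)
    calc cm (sec (rep (mkR G)) g) ≤ cm (sec (rep (mkR G) \ G) g ∪ sec G g) := by
          apply measure_mono
          intro x hx
          by_cases h : (g, x) ∈ G
          · exact Or.inr h
          · exact Or.inl ⟨hx, h⟩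
      _ ≤ cm (sec (rep (mkR G) \ G) g) + cm (sec G g) := measure_union_le _ _
      _ = cm (sec G g) := by rw [g3, zero_add]
  linarith

theorem regx (hReg : RegStatement.{u}) (hPir : PirStatement.{u, u}) (hMq : MqStatement.{u})
    (hRapi : RapiStatement.{u}) (hRep : RepStatement.{u}) (hMeas : MeasStatement.{u}) :
    RegxStatement.{u} := by
  intro A C _ _ f hf π hπ e E hE heE
  obtain ⟨p1, p2, -⟩ := hPir A C f hf π hπ
  obtain ⟨-, m2, m3, -⟩ := hMq C
  obtain ⟨r1, r2, r3, -⟩ := hRapi C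
  set R : RA A := ⨆ ε : List Bool → C, ⨆ _ : Avd ε E, piR f π (e ⊓ cl ε) with hR
  have key : Rᶜ ⊓ piR f π e = ⊥ := by
    refine (p1 e Rᶜ).2 ?_
    intro q hq
    obtain ⟨ε, hε, hεq⟩ := hReg C E hE (q / 2) (by linarith)
    have hKm : MeasurableSet (Kc ε) := (hMeas C).2.2.2.2.2.1 ε
    set G : Set (Pt C) := (Kc ε)ᶜ \ E with hG
    have hGm : MeasurableSet G := hKm.compl.diff hE
    have h1 : mq (mkR G : RA C) (q / 2) = ⊥ := mq_small hRapi hRep hMq hGm hεq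
    -- e is below the complement of E
    have h2 : e ≤ mkR Eᶜ := by
      rw [r3 E hE, le_compl_iff_disjoint_right, disjoint_iff]
      exact heE
    have h3 : (cl ε)ᶜ ⊓ e ≤ mkR G := by
      have h4 : (cl ε : RA C)ᶜ = mkR (Kc ε)ᶜ := (r3 _ hKm).symm
      have h5 : G = (Kc ε)ᶜ ∩ Eᶜ := by rw [hG, Set.diff_eq]
      rw [h4, h5, r2 _ _ hKm.compl hE.compl]
      exact inf_le_inf_left _ h2
    have h4 : e ⊓ rmap f Rᶜ ≤ (e ⊓ cl ε ⊓ rmap f Rᶜ) ⊔ mkR G := by
      exact (split_le e (cl ε) (rmap f Rᶜ)).trans (sup_le_sup_left h3 _)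
    have h5 : mq (e ⊓ rmap f Rᶜ) q ≤ mq (e ⊓ cl ε ⊓ rmap f Rᶜ) (q / 2) := by
      calc mq (e ⊓ rmap f Rᶜ) q ≤ mq ((e ⊓ cl ε ⊓ rmap f Rᶜ) ⊔ mkR G) (q / 2 + q / 2) :=
            m2 _ _ _ _ h4 (by linarith)
        _ ≤ mq (e ⊓ cl ε ⊓ rmap f Rᶜ) (q / 2) ⊔ mq (mkR G) (q / 2) := m3 _ _ _ _
        _ = _ := by rw [h1, sup_bot_eq]
    have h6 : Rᶜ ⊓ piR f π (e ⊓ cl ε) = ⊥ := by
      have h8 : piR f π (e ⊓ cl ε) ≤ R := le_iSup₂_of_le ε hε le_rfl
      have h9 : Disjoint Rᶜ (piR f π (e ⊓ cl ε)) := by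
        rw [← le_compl_iff_disjoint_left, compl_compl]
        exact h8
      exact disjoint_iff.1 h9
    have h7 := (p1 (e ⊓ cl ε) Rᶜ).1 h6 (q / 2) (by linarith)
    rw [← le_bot_iff, ← h7]
    exact addM_mono hπ h5
  have key2 : Disjoint Rᶜ (piR f π e) := disjoint_iff.2 key
  rw [← le_compl_iff_disjoint_left, compl_compl] at key2
  exact key2

end Pool.Agent.Lib.MP_a78e1f_lc.H30
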