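import Pool.Agent.Lib.MP_a78e1f_lc.K.Iface

/-!
Module ITP2F (MP_a78e1f_lc): interpretations and composition.
-/

set_option autoImplicit false

universe u

namespace Pool.Agent.Lib.MP_a78e1f_lc.H30

open Pool.Agent.Lib.MP_a78e1f_lc
open Pool.Agent.Lib.MP_100a6c_lc
open Pool.Agent.Lib.MP_6d445e_gt
open Pool.Agent.Lib.MP_e6fef2_lc

theorem itp2f : Itp2fStatement.{u} := by
  intro A B C _ _ _ f g hf hg c F Z F' h
  obtain ⟨-, hcomp, -⟩ := all_alg2 A B C f g hf hg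
  obtain ⟨gtop, gbot, ginf, gsup, gle, giS, giI, gnS, gnI, gle_prj, gprj_le, gprj_e, gmono,
    gprj_iS, gprj_nS, gprj_sS, glin, gprj_bot, gdis⟩ := all_alg B C g hg
  obtain ⟨-, -, finf, fsup, -, -, -, -, -, -, -, -, fmono, -, -, -, -, -, -⟩ := all_alg A B f hf
  unfold itpF
  refine le_iInf fun k => (iInf_le _ k).trans ?_
  rw [hcomp]
  exact fmono _ _ (le_inf (gmono _ _ inf_le_left) (h k))

end Pool.Agent.Lib.MP_a78e1f_lc.H30
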